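import Mathlib

/-!
First-order definability in a commutative ring, with valuations `ℕ → R`: closure properties.
-/

set_option autoImplicit false

namespace Pool.Agent.T2H90.DG

open FirstOrder FirstOrder.Language FirstOrder.Ring

variable {R : Type*} [CommRing R]

attribute [local instance] FirstOrder.Ring.compatibleRingOfRing

/-- `P` is definable without parameters; the variables are `v 0, v 1, …` -/
def D (P : (ℕ → R) → Prop) : Prop :=
  ∃ φ : Language.ring.Formula ℕ, ∀ v : ℕ → R, φ.Realize v ↔ P v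

/-- `t` is given by a term -/
def T (t : (ℕ → R) → R) : Prop :=
  ∃ τ : Language.ring.Term ℕ, ∀ v : ℕ → R, τ.realize v = t v

theorem T.var (i : ℕ) : T (R := R) fun v => v i := ⟨Term.var i, fun _ => rfl⟩

theorem T.zero : T (R := R) fun _ => 0 := ⟨0, fun v => by simp⟩

theorem T.one : T (R := R) fun _ => 1 := ⟨1, fun v => by simp⟩

theorem T.add {s t : (ℕ → R) → R} (hs : T s) (ht : T t) : T fun v => s v + t v := by
  obtain ⟨σ, hσ⟩ := hs
  obtain ⟨τ, hτ⟩ := ht
  exact ⟨σ + τ, fun v => by simp [hσ, hτ]⟩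

theorem T.mul {s t : (ℕ → R) → R} (hs : T s) (ht : T t) : T fun v => s v * t v := by
  obtain ⟨σ, hσ⟩ := hs
  obtain ⟨τ, hτ⟩ := ht
  exact ⟨σ * τ, fun v => by simp [hσ, hτ]⟩

theorem T.neg {s : (ℕ → R) → R} (hs : T s) : T fun v => - s v := by
  obtain ⟨σ, hσ⟩ := hs
  exact ⟨-σ, fun v => by simp [hσ]⟩

theorem T.sub {s t : (ℕ → R) → R} (hs : T s) (ht : T t) : T fun v => s v - t v := by
  simpa only [sub_eq_add_neg] using hs.add ht.neg

theorem D.of_iff {P Q : (ℕ → R) → Prop} (h : D P) (hPQ : ∀ v, P v ↔ Q v) : D Q := by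
  obtain ⟨φ, hφ⟩ := h
  exact ⟨φ, fun v => (hφ v).trans (hPQ v)⟩

theorem D.eq {s t : (ℕ → R) → R} (hs : T s) (ht : T t) : D fun v => s v = t v := by
  obtain ⟨σ, hσ⟩ := hs
  obtain ⟨τ, hτ⟩ := ht
  exact ⟨σ.equal τ, fun v => by simp [hσ, hτ]⟩

theorem D.not {P : (ℕ → R) → Prop} (h : D P) : D fun v => ¬ P v := by
  obtain ⟨φ, hφ⟩ := h
  exact ⟨φ.not, fun v => by simp [hφ]⟩

theorem D.and {P Q : (ℕ → R) → Prop} (h : D P) (h' : D Q) : D fun v => P v ∧ Q v := by
  obtain ⟨φ, hφ⟩ := h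
  obtain ⟨ψ, hψ⟩ := h'
  exact ⟨φ ⊓ ψ, fun v => by simp [hφ, hψ]⟩

theorem D.or {P Q : (ℕ → R) → Prop} (h : D P) (h' : D Q) : D fun v => P v ∨ Q v := by
  obtain ⟨φ, hφ⟩ := h
  obtain ⟨ψ, hψ⟩ := h'
  exact ⟨φ ⊔ ψ, fun v => by simp [hφ, hψ]⟩

theorem D.imp {P Q : (ℕ → R) → Prop} (h : D P) (h' : D Q) : D fun v => P v → Q v := by
  refine (h.not.or h').of_iff fun v => ?_
  tauto

theorem D.ex {P : (ℕ → R) → Prop} (i : ℕ) (h : D P) : D fun v => ∃ x, P (Function.update v i x) := by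
  obtain ⟨φ, hφ⟩ := h
  let g : ℕ → ℕ ⊕ Fin 1 := fun j => if j = i then Sum.inr 0 else Sum.inl j
  let ψ : Language.ring.BoundedFormula ℕ 1 := BoundedFormula.relabel g φ
  refine ⟨ψ.ex, fun v => ?_⟩
  have h1 : ∀ x : R, (Sum.elim v ((Fin.snoc default x : Fin 1 → R) ∘ Fin.castAdd 0) ∘ g) = Function.update v i x := by
    intro x
    funext j
    by_cases hj : j = i
    · subst hj
      simp [g, Fin.snoc]
    · simp [g, hj]
  show (ψ.ex).Realize v default ↔ _
  rw [BoundedFormula.realize_ex]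
  refine exists_congr fun x => ?_
  rw [BoundedFormula.realize_relabel, h1, ← hφ]
  unfold Formula.Realize
  exact iff_of_eq (congrArg _ (Subsingleton.elim _ _))

theorem D.all {P : (ℕ → R) → Prop} (i : ℕ) (h : D P) : D fun v => ∀ x, P (Function.update v i x) := by
  refine ((h.not.ex i).not).of_iff fun v => ?_
  push Not
  rfl

theorem D.subst {P : (ℕ → R) → Prop} (h : D P) {t : ℕ → (ℕ → R) → R} (ht : ∀ i, T (t i)) :
    D fun v => P fun i => t i v := by
  obtain ⟨φ, hφ⟩ := h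
  choose τ hτ using ht
  refine ⟨BoundedFormula.subst φ τ, fun v => ?_⟩
  show _ ↔ P fun i => t i v
  rw [← hφ]
  unfold Formula.Realize
  rw [BoundedFormula.realize_subst]
  simp only [hτ]

theorem D.sub1 {S : R → Prop} (h : D fun v : ℕ → R => S (v 0)) {t : (ℕ → R) → R} (ht : T t) :
    D fun v => S (t v) :=
  h.subst (t := fun _ => t) fun _ => ht

theorem D.sub2 {S : R → R → Prop} (h : D fun v : ℕ → R => S (v 0) (v 1)) {s t : (ℕ → R) → R}
    (hs : T s) (ht : T t) : D fun v => S (s v) (t v) := by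
  have := h.subst (t := fun i => if i = 0 then s else t) (fun i => by split_ifs <;> assumption)
  simpa using this

theorem D.dvd {s t : (ℕ → R) → R} (hs : T s) (ht : T t) : D fun v => s v ∣ t v := by
  refine D.sub2 (S := fun x y : R => x ∣ y) ?_ hs ht
  have := D.ex 2 (D.eq (R := R) (T.var 1) (T.mul (T.var 0) (T.var 2)))
  simpa [Function.update_apply, dvd_def] using this

theorem D.unit {s : (ℕ → R) → R} (hs : T s) : D fun v => IsUnit (s v) := by
  refine D.sub1 (S := fun x : R => IsUnit x) ?_ hs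
  have := D.ex 2 (D.eq (R := R) (T.mul (T.var 0) (T.var 2)) T.one)
  simpa [Function.update_apply, isUnit_iff_exists_inv] using this

theorem D.irr {s : (ℕ → R) → R} (hs : T s) : D fun v => Irreducible (s v) := by
  refine D.sub1 (S := fun x : R => Irreducible x) ?_ hs
  have := (D.unit (R := R) (T.var 0)).not.and (D.all 2 (D.all 3 ((D.eq (R := R) (T.var 0) (T.mul (T.var 2) (T.var 3))).imp
    ((D.unit (T.var 2)).or (D.unit (T.var 3))))))
  simpa [Function.update_apply, irreducible_iff] using this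

/-- constants -/
def Cst (x : R) : Prop := x = 0 ∨ IsUnit x

theorem D.cst {s : (ℕ → R) → R} (hs : T s) : D fun v => Cst (s v) :=
  (D.eq hs T.zero).or (D.unit hs)

/-- the number of irreducible factors of `F` is at most that of `G` -/
def INJ (F G : R) : Prop :=
  ∃ p q : R, (∀ l, Irreducible l → l ∣ F →
      ∃ m b, Irreducible m ∧ m ∣ G ∧ Cst b ∧ l ∣ p - b ∧ m ∣ q - b) ∧
    ∀ l l' b, Irreducible l → Irreducible l' → Cst b → l ∣ F → l' ∣ F → l ∣ p - b → l' ∣ p - b → l ∣ l'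

theorem D.inj {s t : (ℕ → R) → R} (hs : T s) (ht : T t) : D fun v => INJ (s v) (t v) := by
  refine D.sub2 (S := fun x y : R => INJ x y) ?_ hs ht
  have h1 := D.all 6 ((D.irr (R := R) (T.var 6)).imp ((D.dvd (T.var 6) (T.var 0)).imp
    (D.ex 7 (D.ex 8 ((D.irr (T.var 7)).and ((D.dvd (T.var 7) (T.var 1)).and ((D.cst (T.var 8)).and
      ((D.dvd (T.var 6) (T.sub (T.var 4) (T.var 8))).and (D.dvd (T.var 7) (T.sub (T.var 5) (T.var 8)))))))))))
  have h2 := D.all 6 (D.all 7 (D.all 8 ((D.irr (R := R) (T.var 6)).imp ((D.irr (T.var 7)).imp ((D.cst (T.var 8)).imp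
    ((D.dvd (T.var 6) (T.var 0)).imp ((D.dvd (T.var 7) (T.var 0)).imp
      ((D.dvd (T.var 6) (T.sub (T.var 4) (T.var 8))).imp ((D.dvd (T.var 7) (T.sub (T.var 4) (T.var 8))).imp
        (D.dvd (T.var 6) (T.var 7)))))))))))
  have := D.ex 4 (D.ex 5 (h1.and h2))
  simpa [Function.update_apply, INJ] using this

/-- for nonconstant polynomials: the degree of `f` is at most that of `g` -/
def LEd (f g : R) : Prop := ∀ c, Cst c → ∃ c', Cst c' ∧ INJ (f + c) (g + c')

theorem D.led {s t : (ℕ → R) → R} (hs : T s) (ht : T t) : D fun v => LEd (s v) (t v) := by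
  refine D.sub2 (S := fun x y : R => LEd x y) ?_ hs ht
  have := D.all 2 ((D.cst (R := R) (T.var 2)).imp (D.ex 3 ((D.cst (T.var 3)).and
    (D.inj (T.add (T.var 0) (T.var 2)) (T.add (T.var 1) (T.var 3))))))
  simpa [Function.update_apply, LEd] using this

/-- the defining formula -/
def EQd (f g : R) : Prop :=
  (f = 0 ∧ g = 0) ∨ (IsUnit f ∧ IsUnit g) ∨ (¬ Cst f ∧ ¬ Cst g ∧ LEd f g ∧ LEd g f)

theorem D.eqd : D fun v : ℕ → R => EQd (v 0) (v 1) :=
  ((D.eq (T.var 0) T.zero).and (D.eq (T.var 1) T.zero)).or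
    (((D.unit (T.var 0)).and (D.unit (T.var 1))).or
      ((D.cst (T.var 0)).not.and ((D.cst (T.var 1)).not.and
        ((D.led (T.var 0) (T.var 1)).and (D.led (T.var 1) (T.var 0))))))

theorem exists_formula : ∃ φ : Language.ring.Formula (Fin 2), ∀ f g : R, φ.Realize ![f, g] ↔ EQd f g := by
  obtain ⟨φ, hφ⟩ := D.eqd (R := R)
  refine ⟨Formula.relabel (fun i => if i = 0 then 0 else 1) φ, fun f g => ?_⟩
  rw [Formula.realize_relabel, hφ]
  simp

end Pool.Agent.T2H90.DG
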