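import Pool.Agent.T2H90.DG.Def

/-!
The formula `EQd` defines equality of degrees in `K[X]`.
-/

set_option autoImplicit false

namespace Pool.Agent.T2H90.DG

open Polynomial

variable {K : Type*} [Field K]

/-- number of distinct roots -/
noncomputable def nr [DecidableEq K] (F : K[X]) : ℕ := F.roots.toFinset.card

theorem cst_iff (f : K[X]) : Cst f ↔ ∃ c : K, f = C c := by
  unfold Cst
  constructor
  · rintro (h | h)
    · exact ⟨0, by simp [h]⟩
    · obtain ⟨c, -, hc⟩ := Polynomial.isUnit_iff.1 h
      exact ⟨c, hc.symm⟩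
  · rintro ⟨c, rfl⟩
    by_cases hc : c = 0
    · left; simp [hc]
    · right; exact Polynomial.isUnit_C.2 (isUnit_iff_ne_zero.2 hc)

theorem not_cst_iff (f : K[X]) : ¬ Cst f ↔ 0 < f.natDegree := by
  rw [cst_iff, Nat.pos_iff_ne_zero]
  constructor
  · intro h h0
    exact h ⟨_, Polynomial.eq_C_of_natDegree_eq_zero h0⟩
  · rintro h ⟨c, rfl⟩
    exact h (by simp)

theorem irr_assoc [IsAlgClosed K] {l : K[X]} (hl : Irreducible l) : ∃ x : K, ∀ F : K[X], l ∣ F ↔ F.eval x = 0 := by
  have h1 : l.degree = 1 := IsAlgClosed.degree_eq_one_of_irreducible K hl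
  obtain ⟨x, hx⟩ := IsAlgClosed.exists_root l (by rw [h1]; exact one_ne_zero)
  refine ⟨x, fun F => ?_⟩
  have h2 : (X - C x) ∣ l := dvd_iff_isRoot.2 hx
  have h3 : Associated (X - C x) l := (irreducible_X_sub_C x).associated_of_dvd hl h2
  rw [← h3.dvd_iff_dvd_left, dvd_iff_isRoot]
  rfl

theorem irr_X (x : K) (F : K[X]) : (X - C x) ∣ F ↔ F.eval x = 0 := by
  rw [dvd_iff_isRoot]; rfl

theorem inj_iff [DecidableEq K] [IsAlgClosed K] {F G : K[X]} (hF : F ≠ 0) (hG : G ≠ 0) : INJ F G ↔ nr F ≤ nr G := by
  unfold nr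
  constructor
  · rintro ⟨p, q, h1, h2⟩
    have h3 : (F.roots.toFinset.image fun x => p.eval x) ⊆ (G.roots.toFinset.image fun x => q.eval x) := by
      intro y hy
      rw [Finset.mem_image] at hy ⊢
      obtain ⟨x, hx, rfl⟩ := hy
      rw [Multiset.mem_toFinset, mem_roots hF] at hx
      obtain ⟨m, b, hm, hmG, hb, hpb, hqb⟩ := h1 (X - C x) (irreducible_X_sub_C x) ((irr_X x F).2 hx)
      obtain ⟨z, hz⟩ := irr_assoc hm
      obtain ⟨b, rfl⟩ := (cst_iff b).1 hb
      refine ⟨z, ?_, ?_⟩
      · rw [Multiset.mem_toFinset, mem_roots hG]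
        exact (hz G).1 hmG
      · have h4 := (hz _).1 hqb
        have h5 := (irr_X x _).1 hpb
        rw [eval_sub, eval_C, sub_eq_zero] at h4 h5
        show q.eval z = p.eval x
        rw [h4, h5]
    have h4 : (F.roots.toFinset.image fun x => p.eval x).card = F.roots.toFinset.card := by
      apply Finset.card_image_of_injOn
      intro x hx x' hx' he
      rw [Finset.mem_coe, Multiset.mem_toFinset, mem_roots hF] at hx hx'
      have h5 := h2 (X - C x) (X - C x') (C (p.eval x)) (irreducible_X_sub_C x) (irreducible_X_sub_C x')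
        ((cst_iff _).2 ⟨_, rfl⟩) ((irr_X x F).2 hx) ((irr_X x' F).2 hx') ((irr_X x _).2 (by simp))
        ((irr_X x' _).2 (by
          have he' : p.eval x = p.eval x' := he
          simp [he']))
      have h6 := (irr_X x _).1 h5
      simpa [sub_eq_zero] using h6
    calc F.roots.toFinset.card = (F.roots.toFinset.image fun x => p.eval x).card := h4.symm
      _ ≤ (G.roots.toFinset.image fun x => q.eval x).card := Finset.card_le_card h3
      _ ≤ G.roots.toFinset.card := Finset.card_image_le
  · intro h
    obtain ⟨φ, hφ⟩ : ∃ φ : K → K, (∀ x ∈ F.roots.toFinset, φ x ∈ G.roots.toFinset) ∧ Set.InjOn φ F.roots.toFinset := by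
      have h1 : Nonempty ((F.roots.toFinset : Finset K) ↪ (G.roots.toFinset : Finset K)) := by
        apply Function.Embedding.nonempty_of_card_le
        simpa using h
      obtain ⟨e⟩ := h1
      refine ⟨fun x => if hx : x ∈ F.roots.toFinset then (e ⟨x, hx⟩ : K) else 0, ?_, ?_⟩
      · intro x hx
        simp only [hx, dif_pos]
        exact (e ⟨x, hx⟩).2
      · intro x hx y hy hxy
        rw [Finset.mem_coe] at hx hy
        simp only [hx, hy, dif_pos] at hxy
        have := e.injective (Subtype.ext hxy)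
        simpa using this
    obtain ⟨hφ1, hφ2⟩ := hφ
    let p : K[X] := Lagrange.interpolate F.roots.toFinset id φ
    have hp : ∀ x ∈ F.roots.toFinset, p.eval x = φ x := fun x hx =>
      Lagrange.eval_interpolate_at_node (v := id) φ (Set.injOn_id _) hx
    refine ⟨p, X, ?_, ?_⟩
    · intro l hl hlF
      obtain ⟨x, hx⟩ := irr_assoc hl
      have hxF : x ∈ F.roots.toFinset := by
        rw [Multiset.mem_toFinset, mem_roots hF]; exact (hx F).1 hlF
      have hyG := hφ1 x hxF
      rw [Multiset.mem_toFinset, mem_roots hG] at hyG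
      refine ⟨X - C (φ x), C (φ x), irreducible_X_sub_C _, (irr_X _ _).2 hyG, (cst_iff _).2 ⟨_, rfl⟩, ?_, dvd_rfl⟩
      rw [hx, eval_sub, eval_C, hp x hxF, sub_self]
    · intro l l' b hl hl' hb hlF hl'F hlp hl'p
      obtain ⟨x, hx⟩ := irr_assoc hl
      obtain ⟨x', hx'⟩ := irr_assoc hl'
      obtain ⟨b, rfl⟩ := (cst_iff b).1 hb
      have hxF : x ∈ F.roots.toFinset := by
        rw [Multiset.mem_toFinset, mem_roots hF]; exact (hx F).1 hlF
      have hx'F : x' ∈ F.roots.toFinset := by
        rw [Multiset.mem_toFinset, mem_roots hF]; exact (hx' F).1 hl'F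
      have h1 := (hx _).1 hlp
      have h2 := (hx' _).1 hl'p
      rw [eval_sub, eval_C, sub_eq_zero, hp x hxF] at h1
      rw [eval_sub, eval_C, sub_eq_zero, hp x' hx'F] at h2
      have h3 : x = x' := hφ2 hxF hx'F (h1.trans h2.symm)
      rw [hx, h3]
      exact (hx' _).1 dvd_rfl

theorem nr_le [DecidableEq K] (f : K[X]) (c : K) : nr (f + C c) ≤ f.natDegree := by
  unfold nr
  calc (f + C c).roots.toFinset.card ≤ Multiset.card (f + C c).roots := Multiset.toFinset_card_le _
    _ ≤ (f + C c).natDegree := card_roots' _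
    _ = f.natDegree := natDegree_add_C

theorem exists_nr_eq [DecidableEq K] [IsAlgClosed K] [CharZero K] {f : K[X]} (hf : 0 < f.natDegree) :
    ∃ c : K, nr (f + C c) = f.natDegree := by
  have hd : derivative f ≠ 0 := by
    intro h
    have := derivative_eq_zero.1 h
    omega
  have : Infinite K := IsAlgClosed.instInfinite
  obtain ⟨c, hc⟩ := Infinite.exists_notMem_finset ((derivative f).roots.toFinset.image fun x => - f.eval x)
  refine ⟨c, ?_⟩
  have hne : f + C c ≠ 0 := by
    intro h
    have h1 : (f + C c).natDegree = f.natDegree := natDegree_add_C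
    rw [h, natDegree_zero] at h1
    omega
  have hnd : (f + C c).roots.Nodup := by
    rw [Multiset.nodup_iff_count_le_one]
    intro x
    rw [count_roots]
    by_contra h
    have h1 := (one_lt_rootMultiplicity_iff_isRoot hne).1 (not_le.1 h)
    obtain ⟨h2, h3⟩ := h1
    apply hc
    rw [Finset.mem_image]
    refine ⟨x, ?_, ?_⟩
    · rw [Multiset.mem_toFinset, mem_roots hd]
      simpa using h3
    · have h4 : (f + C c).eval x = 0 := h2
      rw [eval_add, eval_C] at h4
      linear_combination -h4
  unfold nr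
  rw [Multiset.toFinset_card_of_nodup hnd]
  have h5 : (f + C c).natDegree = f.natDegree := natDegree_add_C
  rw [← h5]
  exact (IsAlgClosed.splits (f + C c)).natDegree_eq_card_roots.symm

theorem led_iff [IsAlgClosed K] [CharZero K] {f g : K[X]} (hf : 0 < f.natDegree) (hg : 0 < g.natDegree) :
    LEd f g ↔ f.natDegree ≤ g.natDegree := by
  classical
  have ne : ∀ {h : K[X]}, 0 < h.natDegree → ∀ c : K, h + C c ≠ 0 := by
    intro h hh c h0
    have h1 : (h + C c).natDegree = h.natDegree := natDegree_add_C
    rw [h0, natDegree_zero] at h1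
    omega
  constructor
  · intro h
    obtain ⟨c, hc⟩ := exists_nr_eq hf
    obtain ⟨c', hc', hi⟩ := h (C c) ((cst_iff _).2 ⟨_, rfl⟩)
    obtain ⟨c', rfl⟩ := (cst_iff c').1 hc'
    rw [inj_iff (ne hf c) (ne hg c')] at hi
    rw [← hc]
    exact hi.trans (nr_le g c')
  · intro h c hc
    obtain ⟨c, rfl⟩ := (cst_iff c).1 hc
    obtain ⟨c', hc'⟩ := exists_nr_eq hg
    refine ⟨C c', (cst_iff _).2 ⟨_, rfl⟩, ?_⟩
    rw [inj_iff (ne hf c) (ne hg c'), hc']
    exact (nr_le f c).trans h

theorem eqd_iff [IsAlgClosed K] [CharZero K] (f g : K[X]) : EQd f g ↔ f.degree = g.degree := by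
  unfold EQd
  by_cases hf : Cst f
  · by_cases hg : Cst g
    · simp only [hf, hg, not_true_eq_false, false_and, or_false]
      obtain ⟨a, rfl⟩ := (cst_iff f).1 hf
      obtain ⟨b, rfl⟩ := (cst_iff g).1 hg
      rw [Polynomial.isUnit_C, Polynomial.isUnit_C, isUnit_iff_ne_zero, isUnit_iff_ne_zero]
      by_cases ha : a = 0
      · by_cases hb : b = 0
        · simp [ha, hb]
        · simp [ha, hb, degree_C hb]
      · by_cases hb : b = 0
        · simp [ha, hb, degree_C ha]
        · simp [ha, hb, degree_C ha, degree_C hb]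
    · have h1 : 0 < g.natDegree := (not_cst_iff g).1 hg
      have h2 : f.natDegree = 0 := by
        obtain ⟨a, rfl⟩ := (cst_iff f).1 hf
        simp
      simp only [hf, not_true_eq_false, false_and, or_false]
      constructor
      · rintro (⟨-, h⟩ | ⟨-, h⟩)
        · exact absurd (Or.inl h) hg
        · exact absurd (Or.inr h) hg
      · intro h
        have h3 := natDegree_eq_of_degree_eq h
        omega
  · have h1 : 0 < f.natDegree := (not_cst_iff f).1 hf
    have e1 : ¬ f = 0 := fun h => hf (Or.inl h)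
    have e2 : ¬ IsUnit f := fun h => hf (Or.inr h)
    simp only [e1, e2, hf, false_and, false_or, not_false_eq_true, true_and]
    by_cases hg : Cst g
    · have h2 : g.natDegree = 0 := by
        obtain ⟨a, rfl⟩ := (cst_iff g).1 hg
        simp
      simp only [hg, not_true_eq_false, false_and, false_iff]
      intro h
      have h3 := natDegree_eq_of_degree_eq h
      omega
    · have h2 : 0 < g.natDegree := (not_cst_iff g).1 hg
      have e3 : g ≠ 0 := fun h => hg (Or.inl h)
      simp only [hg, not_false_eq_true, true_and]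
      rw [led_iff h1 h2, led_iff h2 h1, degree_eq_natDegree e1, degree_eq_natDegree e3]
      constructor
      · rintro ⟨h3, h4⟩
        rw [le_antisymm h3 h4]
      · intro h
        have h3 : f.natDegree = g.natDegree := by exact_mod_cast h
        exact ⟨h3.le, h3.ge⟩

end Pool.Agent.T2H90.DG
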